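import Pool.Agent.U492.ER.Main

/-!
# Abundance and the entropy rank of commutative groups of birational maps

Let `X` be a normal projective variety of dimension `n ≥ 2` with canonical singularities, for instance
a projective manifold; `K_X` need not be nef. Let `Γ` be any commutative group (not necessarily finitely
generated) which acts on `X` by birational maps `ρ a` (they need not be automorphisms in any model, and
need not be isomorphisms in codimension one). We prove:

1. The group has an entropy rank `s ≤ n - 1` (`HasEntropyRank`): there is a homomorphism `l` from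
   `Γ` to `ℝ^s`, whose image contains a basis, such that the logarithms of all the dynamical degrees
   `δ_p (ρ a)`, `0 < p < n`, are bounded from above and from below by constant multiples of `∑ |l a i|`.
   So the elements with the dynamical degrees one form the subgroup `ker l`. The number `s` is
   unique, and `s ≥ r` if `Γ` contains a copy of `ℤ^r` whose nonzero elements have a dynamical
   degree `≥ 1 + ε`, for one `ε > 0`.
2. **`s ≤ n - ν (K_X) - 1`** (for `ν (K_X) = n` this means `s = 0`).
3. **Abundance**: if `s > 0` and `κ (X) ≥ n - s - 1`, then `κ (X) = ν (K_X) = n - s - 1`; more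
   generally `κ (X) = ν (K_X) = k` if `κ (X) ≥ k ≥ n - s - 1`, `k < n`.
4. If the entropies are discrete at zero (there is `ε > 0` such that each `ρ a` has a dynamical
   degree `≥ 1 + ε` or all dynamical degrees one), then `Γ / N` is isomorphic to `ℤ^s`, `N` being the
   subgroup of the elements with the dynamical degrees one.

For groups of automorphisms such statements are due to Dinh and Sibony and to Zhang (`r ≤ n - 1`,
`r ≤ n - κ (X) - 1`): there the group acts on `H^{1,1}`, and the characters `l` are the logarithms of the
eigenvalues of common nef eigenvectors. Birational maps do not act in this way, `(f^*)^m ≠ (f^m)^*`, and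
the characters are found here in another way: the logarithm of the first dynamical degree is a
seminorm on `Γ`, and a seminorm on a commutative group such that the ranks of the free subgroups on
which it is a norm are bounded comes from `ℝ^s` (file `Pool.Agent.U492.ER.Rank`).

What is used from the starting library: `Pool.Agent.T2H06.DYG`, which proves for `Γ = ℤ^r` with
`r ≥ n - ν (K_X)` that for each `ε > 0` there is an `a ≠ 0` such that all dynamical degrees of `ρ a` are
less than `1 + ε` (without a hand-in). This gives abundance only if all `a ≠ 0` have entropy `≥ ε`; the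
entropy rank, its existence and uniqueness, the characters, the groups `Γ` which are not free of finite
rank or have elements of zero or small entropy, and (4) are new. The starting result
`MP_1149f4_ag.AdjointSelfMaps` is about one self-map.

The variety is given by the homogeneous coordinates `y` of its generic point (`NormalModel`), with the
function field `K`, a birational self-map `f` by the automorphism `f^*` of `K`. `Canonical` says that
`X` has canonical singularities. `DynDegree y n g p δ`: the number `δ` is the `p`-th dynamical degree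
`lim ((f^m)^* H^p · H^(n - p))^(1/m)`. `NumDimLt y n 0 j` says that `ν (K_X) < j`: the positive
intersection product of `j` copies of `K_X` and `n - j` hyperplane sections is zero (`j = 0`: `K_X` is
not pseudo-effective), `KodairaGe` and `KodairaEq` that `κ (X) ≥ k` and `κ (X) = k`.
-/

set_option autoImplicit false

open FF Pool.Agent.W602.GT Pool.Agent.Y172 Pool.Agent.R887 Pool.Agent.T2H06.DYN Pool.Agent.U492.ER

namespace Pool.Agent.Results.MP_c2a5fc_ag.EntropyRank

/-- **Abundance and the entropy rank.** Let `X` be a normal projective variety of dimension `n ≥ 2`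
with canonical singularities and let the commutative group `Γ` act on `X` by birational maps `ρ a`.
The dynamical degrees of all `ρ a` exist and are at least one. There is exactly one `s` which is the
entropy rank of `Γ`, and
* `s ≤ n - 1`, and `s ≤ n - j - 1` (or `s = 0`) if `ν (K_X) ≥ j`;
* if `s > 0`, `n ≤ s + k + 1`, `k < n` and `κ (X) ≥ k`, then `κ (X) = ν (K_X) = k`;
* `r ≤ s` if there are `f 1, ..., f r` in `Γ` and `ε > 0` such that for all integral `a ≠ 0` the map
  `ρ (∑ a i • f i)` has a dynamical degree `≥ 1 + ε`;
* if for some `ε > 0` each `ρ a` has a dynamical degree `≥ 1 + ε` or all dynamical degrees one, then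
  the latter `a` form a subgroup of `Γ`, with a quotient isomorphic to `ℤ^s`. -/
theorem result {K : Type} [Field K] [Algebra ℂ K] {N n : ℕ} {y : Fin (N + 1) → K}
    (hy : NormalModel y) (hn : Algebra.trdeg ℂ K = n) (hn2 : 2 ≤ n) (hcan : Canonical y n)
    {Γ : Type} [AddCommGroup Γ] (ρ : Γ → (K ≃ₐ[ℂ] K)) (hρ : ∀ a b, ρ (a + b) = ρ a * ρ b) :
    (∀ a, ∀ p ≤ n, ∃ δ : ℝ, 1 ≤ δ ∧ DynDegree y n (ρ a) p δ) ∧
    ∃ s : ℕ, HasEntropyRank y n ρ s ∧ (∀ s', HasEntropyRank y n ρ s' → s' = s) ∧
      s ≤ n - 1 ∧ (∀ j ≤ n, ¬ NumDimLt y n 0 j → s ≤ n - j - 1) ∧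
      (0 < s → ∀ k < n, n ≤ s + k + 1 → KodairaGe y n k → KodairaEq y n k ∧ NumDimEq y n k) ∧
      (∀ (r : ℕ) (f : Fin r → Γ) (ε : ℝ), 0 < ε →
        (∀ a : Fin r → ℤ, a ≠ 0 → ∃ p ≤ n, ∃ δ : ℝ, 1 + ε ≤ δ ∧
          DynDegree y n (ρ (∑ i, a i • f i)) p δ) → r ≤ s) ∧
      ∀ ε : ℝ, 0 < ε → (∀ a, (∀ p ≤ n, ∀ δ : ℝ, DynDegree y n (ρ a) p δ → δ = 1) ∨
          ∃ p ≤ n, ∃ δ : ℝ, 1 + ε ≤ δ ∧ DynDegree y n (ρ a) p δ) →
        ∃ φ : Γ →+ (Fin s → ℤ), Function.Surjective φ ∧
          ∀ a, φ a = 0 ↔ ∀ p ≤ n, ∀ δ : ℝ, DynDegree y n (ρ a) p δ → δ = 1 := by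
  obtain ⟨c, hc⟩ := growth hρ hy hn hn2 hcan
  obtain ⟨s, hs⟩ := exists_rank hρ hy hn hn2 hcan
  obtain ⟨h1, h2⟩ := hs.le_of_numDim hρ hy hn hn2 hcan hc
  refine ⟨hc.exists_deg, s, hs, fun s' hs' => ?_, h1, h2, fun hs0 k hk hks hkod => ?_,
    fun r f ε hε hf => hs.le hc f hε hf, fun ε hε hd => hs.lattice hc hn2 hε hd⟩
  · exact le_antisymm (hs'.unique hs hc hn2) (hs.unique hs' hc hn2)
  · have h3 : NumDimLt y n 0 (k + 1) := by
      by_contra h4
      have := h2 (k + 1) hk h4
      omega
    have key : ∀ j ≤ n, NumDimLt y n 0 j → ¬ KodairaGe y n j := by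
      rintro j hj hnum ⟨m, hm, ω, E, hω, h0, hind⟩
      refine kappa_lt hy hn hj hnum hm (fun i => ?_) h0 hind
      rw [smul_zero]
      exact hω i
    exact ⟨⟨hkod, key (k + 1) hk h3⟩, h3, fun h4 => key k hk.le h4 hkod⟩

end Pool.Agent.Results.MP_c2a5fc_ag.EntropyRank
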