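import Pool.Agent.U192.NM.Main
import Pool.Agent.TH466.QG.Low

/-!
# Abundance for the varieties dominated by fibre spaces over a base with a positive canonical bundle

Let `g : V → B` be a fibre space of projective varieties over `ℂ`, `dim B = d`, whose geometric
generic fibre `F` has dimension `r + 1 ≥ 1` and numerical dimension `ν(F) ≤ 0` (for instance an abelian
variety, a Calabi-Yau or a hyperkähler manifold, or any variety with `ν(F) = 0`; the growth of
`h⁰(m K_F + A)` is bounded for every divisor `A`). Let `f i : B ⇢ ℙ^{N i}`, `i < k`, be rational maps
such that `B` is mapped birationally into the product of the projective spaces, and let `H i` be the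
pull-back of a hyperplane to (a model of) `V`. For instance `k = 1` and `B ⊆ ℙ^N`, or `B` is a
subvariety of a product of varieties `B i ⊆ ℙ^{N i}`.

Let `V ⇢ W` be a dominant rational map of finite degree to any variety `W`. It need not be related to
the fibration, and it need not be a Galois cover. Let `W_i` be the image of `V` in
`W × ℙ^{N 0} × ... × ℙ^{N (i - 1)}` and let `δ i` be the degree of `W_{i + 1}` over `W_i`. So `δ 0` is
the number of different points of `f 0 (B)` below a general fibre of `V ⇢ W`, and the product of all
`δ i` is at most the degree of `V ⇢ W`.

Suppose that the Iitaka dimension of `K_V - R_g - 2 ∑ (δ i - 1) H i` is at least `d = dim B`, where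
`R_g` is the divisor with the multiplicity `c - 1` at the prime divisors over `V` along which all
functions on `B` have orders divisible by `c` (the multiple fibres of `g`). Then the following are
equivalent:

* `ν(W) ≠ -∞`, i.e. `K_W` is pseudo-effective;
* `κ(W) ≥ 0`;
* `κ(W) ≥ d`;
* the pluricanonical forms of `V` vanish along the horizontal ramification divisors of `V ⇢ W`: a given
  `m`-canonical form has order at least `m (e - 1)` along all prime divisors over `V` which are mapped
  onto `B` and have the ramification index `e` over `W`.

Moreover `ν(W) ≤ d` always. So `κ(W) = ν(W)` is `-∞` or `dim B`, and the two cases are distinguished by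
the ramification. In particular `κ(M) = ν(M) = dim B` for every projective manifold `M` with nef
canonical bundle which is birational to such a variety `W`, i.e. which is dominated by `V`. (For nef
`K_M` the growth of `h⁰(m K_M + A)` gives the usual numerical dimension, and `ν = -∞` in the sense of
growth is impossible; this remark is not part of the Lean proof. That `K_W` is pseudo-effective if
and only if `ν(W) ≠ -∞` in the sense of the growth of sections is a theorem of Nakayama.)

Some condition on the base is necessary: if `B` and `F` are elliptic curves and `W = V = B × F` then
`κ(W) = 0 < d = 1`. For a product `V = B × F` the divisor `R_g` is not needed: along a prime divisor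
`Q` over `V` on which the orders of the functions on `B` are divisible by `c`, the pull-backs of the
pluricanonical forms on `B` vanish to the order `m (c - 1)`.

Proof. Let `θ` be an `m`-canonical form on `V` with the required zeros and `γ` a function on `B`. The
norm of `γ θ` from the function field `L` of `V` to the function field `K` of `W`, multiplied by a power
of the discriminant `Δ` of a basis of the function field `M` of the image of `V` in `W × B`, is a
pluricanonical form on `W`. It is regular: let `P` be a prime divisor over `W`. At the places over `P`
where the base is not constant, the poles of the norm, which come from the ramification, are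
compensated by the multiplicity `m (c - 1)` of `θ` and by the discriminant, because the ramification
group at `P` rotates the embeddings of `M`, and the order of the discriminant is at least the one of
the product of the differences of the eigenvectors of this rotation; the poles of the discriminant
are bounded by `2 ∑ (δ i - 1) H i`, as there is a basis consisting of monomials of degree at most
`δ i - 1` in the coordinates of `f i`. At the other places the form `θ` vanishes along the
ramification: otherwise the products of `θ` with the pull-backs of the sections of `m K_W + A` have
many different orders along this divisor, so that they are linearly independent over the function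
field of `B`, contrary to `ν(F) ≤ 0`. If a vector field on `W` annihilates the ratios of these norms
then it annihilates the norms of `c - x` for all `c ∈ ℂ` and all ratios `x` of forms on `V`, so that it
annihilates `x`. So the ratios of the norms generate a field of transcendence degree at least `d`.
-/

set_option autoImplicit false
set_option linter.overlappingInstances false

open FF Module Pool.Agent.W602.GT
open Pool.Agent.W619.TW (NumNeg NumLe)

namespace Pool.Agent.Results.MP_c2a5fc_ag.FibreSpaceImages

/-- The order of the poles along `Q` of the functions in the finite set `Y`: the multiplicity along `Q`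
of the pull-back of a hyperplane under the rational map with the coordinates `1` and `Y`. -/
noncomputable def poleOrder {L : Type} [Field L] [Algebra ℂ L] (Y : Finset L) (Q : Place ℂ L) : ℕ :=
  Y.sup fun z => (-Q.ord z).toNat

/-- The function field of the image `W_j` of `V` in the product of `W` and the first `j` projective
spaces. `K` and `L` are the function fields of `W` and `V`, and `X i` is the set of the affine
coordinates of the `i`-th rational map. -/
def Img {L : Type} [Field L] (K : Type) [Field K] [Algebra K L] {k : ℕ} (X : Fin k → Finset L)
    (j : ℕ) : IntermediateField K L :=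
  IntermediateField.adjoin K {z | ∃ i : Fin k, i.val < j ∧ z ∈ X i}

/-- The degree `δ i` of `W_{i + 1}` over `W_i`. -/
noncomputable def deg {L : Type} [Field L] (K : Type) [Field K] [Algebra K L] {k : ℕ}
    (X : Fin k → Finset L) (i : Fin k) : ℕ :=
  finrank (Img K X i) (IntermediateField.adjoin (Img K X i) (X i : Set L))

/-- `θ` is a section of `m (K_V - R_g) - H`, where `L` is the function field of `V`, of dimension `n`,
`E` the one of the base, and `H` has the multiplicity `b Q` at `Q`: the `m`-canonical form `θ` is
regular at all prime divisors `Q` over `V`, and if the base is not constant along `Q` then the order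
of `θ` along `Q` is at least `m (c - 1) + b Q` for all common divisors `c` of the orders of the
functions on the base along `Q`. -/
def IsPositive {L : Type} [Field L] [Algebra ℂ L] (E : IntermediateField ℂ L) (n m : ℕ)
    (b : Place ℂ L → ℤ) (θ : (Fin n → Derivation ℂ L L) → L) : Prop :=
  IsPluri m θ ∧ ∀ Q : Place ℂ L, Divisorial n Q → ∀ G : Fin n → Derivation ℂ L L,
    (∀ i, DerReg Q (G i)) → θ G ≠ 0 → 0 ≤ Q.ord (θ G) ∧
      ∀ c : ℕ, (∃ z ∈ E, Q.ord z ≠ 0) → (∀ z ∈ E, (c : ℤ) ∣ Q.ord z) →
        (m : ℤ) * (c - 1) + b Q ≤ Q.ord (θ G)

/-- The `m`-canonical form `θ` vanishes along the horizontal ramification divisors of `V ⇢ W`: along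
each prime divisor `Q` over `V` which is mapped onto the base, its order is at least `m (e - 1)`,
where `e` is the ramification index over `W`. -/
def VanishesOnRamification {L : Type} [Field L] [Algebra ℂ L] (K : Type) [Field K] [Algebra ℂ K]
    [Algebra K L] (E : IntermediateField ℂ L) (n m : ℕ) (θ : (Fin n → Derivation ℂ L L) → L) :
    Prop :=
  ∀ (P : Place ℂ K) (Q : Place ℂ L) (e : ℕ),
    (0 < e ∧ ∀ f : K, Q.ord (algebraMap K L f) = e * P.ord f) → Divisorial n Q →
    (∀ z ∈ E, Q.ord z = 0) → ∀ G : Fin n → Derivation ℂ L L, (∀ i, DerReg Q (G i)) →
    θ G = 0 ∨ (m : ℤ) * (e - 1) ≤ Q.ord (θ G)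

/-- **Abundance for images of fibre spaces.** Let `L` be the function field of a variety `V` of
dimension `d + (r + 1)` and `E` the one of the base `B` of a fibration of `V`, i.e. `E` is algebraically
closed in `L` and generated by the finitely many coordinates in the sets `X i`, and its transcendence
degree is `d`. Let `Λ` be an algebraic extension of `E` (for instance the algebraic closure), and let
`F` be the function field over `Λ` of the generic fibre, of numerical dimension at most `0`.
Let `K ⊆ L` be the function field of a variety `W`, the extension being finite. Suppose that there are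
sections `θ 0, ..., θ d` of `m (K_V - R_g - 2 ∑ (δ i - 1) H i)` whose ratios are algebraically
independent. Then `ν(W) ≠ -∞` if and only if `κ(W) ≥ 0`, if and only if `κ(W) ≥ d`, if and only if `θ 0`
vanishes along the horizontal ramification divisors of `V ⇢ W`. Moreover, `ν(W) ≤ d`. -/
theorem result {L Λ F : Type} [Field L] [Field Λ] [Field F] [Algebra ℂ L]
    [Algebra.EssFiniteType ℂ L] (E : IntermediateField ℂ L) [Algebra E Λ] [Algebra Λ F]
    [Algebra L F] [IsScalarTower E Λ F] [IsScalarTower E L F] [Algebra ℂ Λ] [Algebra ℂ F]
    [IsScalarTower ℂ Λ F] [IsScalarTower ℂ L F] [IsScalarTower ℂ E Λ]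
    [Algebra.IsAlgebraic E Λ] {d r m k : ℕ} (hE : Algebra.trdeg ℂ E = d)
    (hL : Algebra.trdeg ℂ L = (d + (r + 1) : ℕ)) (hcl : ∀ z : L, IsAlgebraic E z → z ∈ E)
    (hF : IntermediateField.adjoin Λ (Set.range (algebraMap L F)) = ⊤)
    (hnum : NumLe Λ F (r + 1) (fun _ => False) 0)
    (X : Fin k → Finset L) (hX : IntermediateField.adjoin ℂ (⋃ i, (X i : Set L)) = E)
    (K : Type) [Field K] [Algebra ℂ K] [Algebra K L] [IsScalarTower ℂ K L] [FiniteDimensional K L]
    (hm : 1 ≤ m) (θ : Fin (d + 1) → (Fin (d + (r + 1)) → Derivation ℂ L L) → L)
    (hθ : ∀ j, IsPositive E (d + (r + 1)) m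
      (fun Q => ∑ i, 2 * m * ((deg K X i : ℤ) - 1) * poleOrder (X i) Q) (θ j))
    (D : Fin (d + (r + 1)) → Derivation ℂ L L) (hD : θ 0 D ≠ 0)
    (hind : AlgebraicIndependent ℂ fun j : Fin d => θ j.succ D / θ 0 D) :
    [¬ NumNeg ℂ K (d + (r + 1)) (fun _ => False), KodGe ℂ K (d + (r + 1)) (fun _ => False) 0,
      KodGe ℂ K (d + (r + 1)) (fun _ => False) d,
      VanishesOnRamification K E (d + (r + 1)) m (θ 0)].TFAE ∧
    NumLe ℂ K (d + (r + 1)) (fun _ => False) d := by
  have hK : Algebra.EssFiniteType ℂ K := Pool.Agent.TH466.QG.ess_below (K := L)
  exact U192.NM.abu (Λ := Λ) (F := F) E hm hE hL hF hcl hnum X hX (fun j => (hθ j).1)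
    (fun j => (hθ j).2) hD hind

end Pool.Agent.Results.MP_c2a5fc_ag.FibreSpaceImages
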