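import Pool.Agent.U192.TF.Two

/-!
# Abundance for varieties dominated by the product of a curve and a variety

Let `X₁` be a projective variety over `ℂ` of dimension `d`, `C` a curve of any genus, and let
`f : X₁ × C ⇢ W` be a dominant rational map of finite degree. It need not be related to the product
structure, and it need not be the quotient by a group. Let `X₁ ⇢ X` be a dominant rational map of
finite degree (for instance the identity), and let `V` be the image of `X₁ × C` in `W × X`. Let `T` be
a finite set of rational functions on `X` such that `1` and the functions in `T` generate the function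
field `ℂ(V)` as a vector space over `ℂ(W)`, and let `H` be the divisor of the poles of the functions in
`T`: the linear system in `|H|` which corresponds to `T` separates the points of `X` below the general
fibre of `f`.

**Theorem.** Suppose that `κ(X, K_X - 2 H) ≥ a`, in the form: for some `m ≥ 1` there are `a + 1`
sections of `m (K_X - 2 H)` (on all models, see `IsSection`) with algebraically independent ratios. Then:

1. `ν(W) ≠ -∞` if and only if `K_W` is pseudo-effective, if and only if `κ(W) ≥ a`, if and only if `W` is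
   not uniruled.
2. If `W` is not uniruled then `κ(W) ≥ a + 1`, or `κ(W) ≥ a` and `ν(W) ≤ d`.

Let `K_X - 2 H` be big, `a = d = dim X`. Then one of the following holds: `W` is uniruled and
`κ(W) = ν(W) = -∞`; or `κ(W) = ν(W) = dim W - 1`; or `W` is of general type. So
`κ(M) = ν(M)` for all projective manifolds `M` with nef canonical bundle which are birational to such a
`W`. (`κ(M) ≤ ν(M)` (Kawamata) and the comparison of `ν(M)` for nef `K_M` with the growth of
`h⁰(m K_M + A)` are known and not part of the Lean proof.)

Here `ν(W) ≤ d` means that `h⁰(W, m K_W + A)` grows at most like `m ^ d` for all divisors `A`, and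
`ν(W) = -∞` that it is zero for large `m`. The theorem `FibreSpaceImages` (same problem) treats images of
fibre spaces whose fibres have numerical dimension at most `0`; here the curve `C` has arbitrary
genus. In the starting file `MP_97d78d_ag.ProductsOfVarieties` the canonical forms of `X = X₁` separate
twice the number of points below a general fibre.

Proof. Let `V₁` be the image of `X₁ × C` in `W × X₁`. Let `τ_φ` be the traces on `V₁` of the products
of the differentials `φ` on `C` with `dx_1 ... dx_d`, for coordinates `x` on `X`. If they all vanish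
then the fibres of `V₁ → X₁` are rational and `W` is uniruled. The products `τ_φ ⋯ τ_φ' θ` of `m` of
them with a section `θ` of `m (K_X - 2 H)` are `m`-canonical forms on `V₁`, and their norms to `W`,
multiplied by a power of the discriminant of a basis of `ℂ(V)` over `ℂ(W)` in `T`, are regular
pluricanonical forms on `W` (see `MP_e06174_ag.ProductsWithCurves`, by the same agent). If the ratio of
two of the `τ_φ` is not a function on `X₁`, then it is transcendental over the functions on `X₁`, and
`κ(W) ≥ a + 1`. Otherwise, by duality, the geometric generic fibre of `V₁ → X₁` has genus at most one,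
its numerical dimension is at most zero, and `ν(W) ≤ ν(V₁) ≤ d` by the easy addition theorem for the
numerical dimension. The library statements on the trace relations are due to helper145, helper603,
helper279, helper459, helper273, helper160 and others, easy addition to Y174 and W619.
-/

set_option autoImplicit false
set_option linter.overlappingInstances false
set_option maxHeartbeats 4000000
set_option synthInstance.maxHeartbeats 400000

open FF Module Pool.Agent Pool.Agent.W602.GT
open Pool.Agent.W619.PQ (IsUniruled)
open Pool.Agent.W619.TW (NumNeg NumLe)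

namespace Pool.Agent.Results.MP_c2a5fc_ag.ImagesOfProductsWithCurves

/-- The order of the poles along `v` of the functions in the finite set `T`: the multiplicity at `v`
of `H`, the smallest effective divisor with `H + (t) ≥ 0` for all `t ∈ T`, `t ≠ 0`. -/
noncomputable def poleOrder {E : Type} [Field E] [Algebra ℂ E] (T : Finset E) (v : Place ℂ E) : ℕ :=
  T.sup fun z => (-v.ord z).toNat

/-- `θ` is a section of `m (K_X - 2 H)`, where `E` is the function field of `X`, of dimension `d`, and
`H` is the divisor of the poles of the functions in `T`: an `m`-canonical form of order at least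
`2 m H_v` along all prime divisors `v` over `X`. -/
def IsSection {E : Type} [Field E] [Algebra ℂ E] (d m : ℕ) (T : Finset E)
    (θ : (Fin d → Derivation ℂ E E) → E) : Prop :=
  IsPluri m θ ∧ ∀ v : Place ℂ E, Divisorial d v → ∀ G : Fin d → Derivation ℂ E E,
    (∀ i, DerReg v (G i)) → θ G = 0 ∨ 2 * (m : ℤ) * poleOrder T v ≤ v.ord (θ G)

/-- `κ(X, K_X - 2 H) ≥ a`: for some `m ≥ 1` there are `a + 1` sections of `m (K_X - 2 H)` with
algebraically independent ratios. -/
def IsPositive {E : Type} [Field E] [Algebra ℂ E] (d a : ℕ) (T : Finset E) : Prop :=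
  ∃ m : ℕ, 1 ≤ m ∧ ∃ θ : Fin (a + 1) → (Fin d → Derivation ℂ E E) → E,
    (∀ j, IsSection d m T (θ j)) ∧ ∃ G : Fin d → Derivation ℂ E E, θ 0 G ≠ 0 ∧
      AlgebraicIndependent ℂ fun j : Fin a => θ j.succ G / θ 0 G

/-- `1` and the functions in `T` generate the field `L(E)` as a vector space over `L`. Here `K` is the
function field of `X₁ × C`, `E` the one of `X`, `L` the one of `W`, and so `L(E)` the one of the image
`V` of `X₁ × C` in `W × X`. -/
def Separates {K : Type} [Field K] [Algebra ℂ K] (L : Type) [Field L] [Algebra L K]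
    (E : IntermediateField ℂ K) (T : Finset E) : Prop :=
  ∀ z ∈ IntermediateField.adjoin L (E : Set K),
    z ∈ Submodule.span L (insert 1 ((fun t : E => (t : K)) '' (T : Set E)))

/-- `κ(W) ≥ a`: for some `m ≥ 1` there are `a + 1` regular `m`-canonical forms on `W` (regular at all
prime divisors over `W`) with algebraically independent ratios. Here `L` is the function field of `W`, of
dimension `n`. -/
def KodairaGe (L : Type) [Field L] [Algebra ℂ L] (n a : ℕ) : Prop :=
  ∃ m : ℕ, 1 ≤ m ∧ ∃ ω : Fin (a + 1) → (Fin n → Derivation ℂ L L) → L,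
    (∀ j, IsPluri m (ω j) ∧ ∀ P : Place ℂ L, Divisorial n P → RegAt P (ω j)) ∧
    ∃ D : Fin n → Derivation ℂ L L, ω 0 D ≠ 0 ∧
      AlgebraicIndependent ℂ fun j : Fin a => ω j.succ D / ω 0 D

theorem conv {E : Type} [Field E] [Algebra ℂ E] {d m : ℕ} {T : Finset E}
    {θ : (Fin d → Derivation ℂ E E) → E} (h : IsSection d m T θ) :
    ∀ v : Place ℂ E, Divisorial d v → ∀ G : Fin d → Derivation ℂ E E,
      (∀ i, DerReg v (G i)) → θ G = 0 ∨ ∀ t : E, (t = 1 ∨ t ∈ T) → t ≠ 0 →
        (0 : ℤ) ≤ v.ord (θ G) + 2 * m * v.ord t := by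
  intro v hv G hG
  rcases h.2 v hv G hG with h1 | h1
  · exact Or.inl h1
  refine Or.inr fun t ht _ => ?_
  have h2 : -v.ord t ≤ poleOrder T v := by
    rcases ht with rfl | ht
    · rw [v.ord_one, neg_zero]
      exact Int.natCast_nonneg _
    · have h3 : (-v.ord t).toNat ≤ poleOrder T v :=
        Finset.le_sup (f := fun z => (-v.ord z).toNat) ht
      have h4 := Int.self_le_toNat (-v.ord t)
      exact h4.trans (by exact_mod_cast h3)
  have h3 := mul_le_mul_of_nonneg_left h2 (by positivity : (0 : ℤ) ≤ 2 * m)
  linarith

/-- **Theorem.** Let `K` be the function field of the product of a variety with function field `E₁`, of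
dimension `d`, and of a curve with function field `C`; let `E ⊆ E₁` be a subfield of the same
transcendence degree, the function field of `X`, and `L ⊆ K` the function field of a variety `W`, the
extension being finite. Let `T ⊆ E` be a finite set of functions which separates the points of `X`
below a general point of `W`, and let `κ(X, K_X - 2 H) ≥ a`. Then `ν(W) ≠ -∞` if and only if `K_W` is
pseudo-effective, if and only if `κ(W) ≥ a`, if and only if `W` is not uniruled; and if `W` is not
uniruled then `κ(W) ≥ a + 1`, or `κ(W) ≥ a` and `ν(W) ≤ d`. In particular, for `a = d`, `W` is uniruled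
with `ν(W) = -∞`, or `κ(W) = ν(W) = dim W - 1`, or `κ(W) = dim W`. -/
theorem result (K : Type) [Field K] [Algebra ℂ K] [Algebra.EssFiniteType ℂ K] (d : ℕ)
    (E E₁ C : IntermediateField ℂ K) (hE : Algebra.trdeg ℂ E = d) (hE₁ : Algebra.trdeg ℂ E₁ = d)
    (hC : Algebra.trdeg ℂ C = 1) (hK : Algebra.trdeg ℂ K = (d + 1 : ℕ)) (hEE : E ≤ E₁)
    (hsup : E₁ ⊔ C = ⊤) (L : Type) [Field L] [Algebra ℂ L] [Algebra L K] [IsScalarTower ℂ L K]
    [FiniteDimensional L K] (T : Finset E) (hT : Separates L E T) (a : ℕ)
    (hpos : IsPositive d a T) :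
    [¬ NumNeg ℂ L (d + 1) (fun _ => False), Psef ℂ L (d + 1) (fun _ => False),
      KodairaGe L (d + 1) a, ¬ IsUniruled ℂ L (d + 1)].TFAE ∧
    (¬ IsUniruled ℂ L (d + 1) → KodairaGe L (d + 1) (a + 1) ∨
      KodairaGe L (d + 1) a ∧ NumLe ℂ L (d + 1) (fun _ => False) d) := by
  classical
  have hL : Algebra.trdeg ℂ L = (d + 1 : ℕ) := Y184.NT.trdeg_below (K := K) hK
  have hessL : Algebra.EssFiniteType ℂ L := TH466.QG.ess_below (K := K)
  have hFF : IsFF ℂ C := ⟨N999.SX.ess_any C, hC⟩
  have hset : ∀ z ∈ IntermediateField.adjoin L (E : Set K),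
      z ∈ Submodule.span L {z : K | ∃ t : E, (t = 1 ∨ t ∈ T) ∧ (t : K) = z} := by
    intro z hz
    refine Submodule.span_mono ?_ (hT z hz)
    rintro w (rfl | ⟨t, ht, rfl⟩)
    · exact ⟨1, Or.inl rfl, rfl⟩
    · exact ⟨t, Or.inr ht, rfl⟩
  have h := U192.TF.main (C := C) (L := L) hEE hsup hE hE₁ hK hset (BX := fun _ => False)
    (B := ∅) Set.finite_empty (BL := fun _ => False) (fun P Q e hQ => by
      constructor
      · exact fun h => h.elim
      · rintro (⟨_, _, h, -⟩ | ⟨_, h, -⟩)
        · exact h
        · exact h)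
  have h2 := U192.TF.two (C := C) (L := L) hEE hsup hE hE₁ hK hset
  have hunir : W619.PL.IsA1Uniruled ℂ L (d + 1) (fun _ => False) → IsUniruled ℂ L (d + 1) := by
    rintro ⟨M, i1, i2, φ, h1, h2, -⟩
    exact ⟨M, i1, i2, h1, h2, ⟨φ⟩⟩
  have hunir' : IsUniruled ℂ L (d + 1) → W619.PL.IsA1Uniruled ℂ L (d + 1) (fun _ => False) := by
    rintro ⟨M, i1, i2, h1, h2, ⟨φ⟩⟩
    exact ⟨M, i1, i2, φ, h1, h2, fun _ _ _ _ _ _ => id⟩
  have hk1 : ∀ a, KodGe ℂ L (d + 1) (fun _ => False) a → KodairaGe L (d + 1) a := by
    rintro a ⟨m, hm, ω, hω, D, hD, hind⟩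
    exact ⟨m, hm, ω, fun j => ⟨(hω j).1, fun P hP => (hω j).2.2 P hP id⟩, D, hD, hind⟩
  have hk2 : ∀ a, KodairaGe L (d + 1) a → KodGe ℂ L (d + 1) (fun _ => False) a := by
    rintro a ⟨m, hm, ω, hω, D, hD, hind⟩
    refine ⟨m, hm, ω, fun j => ⟨(hω j).1, fun P hP G hG => ?_, fun P hP _ => (hω j).2 P hP⟩, D, hD,
      hind⟩
    refine (hω j).2 P hP G fun i f hf => ?_
    by_cases hf0 : f = 0
    · rw [hf0, map_zero]
      exact P.reg_zero
    · have h1 : G i f = G i f / f * f := (div_mul_cancel₀ _ hf0).symm
      rw [h1]
      exact P.reg_mul (hG i f) hf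
  obtain ⟨m, hm, θ, hθ, G, hG, hind⟩ := hpos
  have hka : ¬ IsUniruled ℂ L (d + 1) → KodairaGe L (d + 1) a := by
    intro hu
    obtain ⟨h1, -⟩ := h.resolve_left fun h => hu (hunir h)
    exact hk1 a (h1 m a hm θ (fun j => (hθ j).1) (fun j v hv G hG => by
      rcases conv (hθ j) v hv G hG with h3 | h3
      · exact Or.inl h3
      · refine Or.inr fun t ht ht0 => ?_
        rw [if_neg id]
        exact h3 t ht ht0) G hG hind)
  refine ⟨?_, fun hu => ?_⟩
  · tfae_have 2 → 4 := fun h1 h2 => N145.PL.not_psef_of_a1 hL (hunir' h2) h1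
    tfae_have 4 → 3 := hka
    tfae_have 3 → 2 := fun h1 => N145.PL.psef_of_kodGe' (hk2 a h1)
    tfae_have 3 → 1 := fun h1 => U192.NM.not_neg_of_kod (hk2 a h1)
    tfae_have 1 → 4 := fun h1 h2 => h1 (W619.Y.uniruled_neg (d + 1) hL h2).2
    tfae_finish
  · rcases h2 with h3 | h3 | h3
    · exact absurd (hunir h3) hu
    · exact Or.inr ⟨hka hu, h3⟩
    · exact Or.inl (hk1 _ (h3 m a hm θ (fun j => (hθ j).1) (fun j => conv (hθ j)) G hG hind))

end Pool.Agent.Results.MP_c2a5fc_ag.ImagesOfProductsWithCurves
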