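import Pool.Agent.Y174.H3

/-!
# Quotients of varieties of maximal Albanese dimension by groups which satisfy the Reid-Tai condition

Let `Z` be a projective variety over `ℂ` of dimension `n` with function field `L`, and `G` a finite
group of birational automorphisms of `Z`. Let `W` be a `G`-stable space of regular 1-forms on `Z` which
generates the 1-forms at the general point; so `Z` is of maximal Albanese dimension. Suppose that the
Reid-Tai condition for terminal quotient singularities holds for the action of `G` on `W`: for every
`g ≠ 1` in the inertia group of some prime divisor over `Z`, of order `d`, and for all `n` eigenforms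
of `g` in `W` which are independent at the general point, with eigenvalues `ζ ^ a i`, `0 ≤ a i < d`,
`ζ` a primitive `d`-th root of unity: `a 1 + ... + a n > d`.

**Theorem.** Let `V = Z / G`. Then `κ(V) = κ(Z) ≥ 0` and `ν(V) ≤ ν(Z)`, where `ν` is the numerical
dimension of the canonical bundle, defined by the growth of the sections of `m K + A`. So if
`ν(Z) = κ(Z)` (abundance is known for the varieties of maximal Albanese dimension) then
`κ(V) = ν(V)` for all projective manifolds birational to `Z / G`, in particular for those with nef
canonical bundle.

There is no condition on the singularities of a model on which `G` acts: `Z` is any variety with a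
generically finite map to an abelian variety, and only the elements in the inertia groups of the
prime divisors over `Z` matter. For an abelian variety `Z` and `W = H⁰(Ω¹)` the condition says that no
element of `G` fixes a divisor and that `Z / G` has terminal singularities. The manifold `V` may have
no regular 1-forms, and it need not be birational to a quotient by a group which acts freely.
-/

set_option autoImplicit false

open FF Pool.Agent.W619.PQ Pool.Agent.W619.TW Pool.Agent.W619.Y Pool.Agent.Y174

namespace Pool.Agent.Results.MP_c2a5fc_ag.ReidTaiQuotients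

/-- `η` is a regular 1-form on the variety of dimension `n` with function field `L`. -/
def IsRegForm {L : Type} [Field L] [Algebra ℂ L] (n : ℕ) (η : Derivation ℂ L L →ₗ[L] L) : Prop :=
  ∀ w : Place ℂ L, IsDivisorial w n → ∀ D : Derivation ℂ L L,
    (∀ f, w.Reg f → w.Reg (D f)) → w.Reg (η D)

/-- `ν ≤ κ` for the canonical bundle of the variety of dimension `n` with function field `K`: if
`κ ≤ h` then `ν ≤ h`, for all `h ≥ 0`. -/
def NumLeKod (K : Type) [Field K] [Algebra ℂ K] (n : ℕ) : Prop :=
  ∀ h : ℕ, ¬ KodTr ℂ K n (h + 1) → NumLe ℂ K n (fun _ => False) h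

/-- **Quotients of varieties of maximal Albanese dimension.** -/
theorem result {L : Type} [Field L] [Algebra ℂ L] [Algebra.EssFiniteType ℂ L] {n : ℕ}
    (hn : Algebra.trdeg ℂ L = n) (G : Subgroup (L ≃ₐ[ℂ] L)) [Finite G]
    {W : Submodule ℂ (Derivation ℂ L L →ₗ[L] L)} (hreg : ∀ η ∈ W, IsRegForm n η)
    (hgen : Submodule.span L (W : Set (Derivation ℂ L L →ₗ[L] L)) = ⊤)
    (hG : ∀ g ∈ G, ∀ η ∈ W, gForm g η ∈ W) (hRT : ReidTai n G W) :
    MaxAlb ℂ L n ∧ KodTr ℂ (IntermediateField.fixedField G) n 0 ∧
      (∀ h, KodTr ℂ (IntermediateField.fixedField G) n h ↔ KodTr ℂ L n h) ∧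
      (∀ h, NumLe ℂ L n (fun _ => False) h →
        NumLe ℂ (IntermediateField.fixedField G) n (fun _ => False) h) ∧
      (NumLeKod L n → NumLeKod (IntermediateField.fixedField G) n) := by
  obtain ⟨h1, h2, h3, h4⟩ := main4 hn ‹Algebra.EssFiniteType ℂ L› G
    (fun η hη w hw D hD => hreg η hη w hw D hD) hgen hG hRT
  exact ⟨h1, h2, h3, h4, fun hL h hk => h4 h (hL h fun hc => hk ((h3 _).2 hc))⟩

end Pool.Agent.Results.MP_c2a5fc_ag.ReidTaiQuotients
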